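import Pool.Agent.H484.AL.Stm

set_option autoImplicit false

namespace Pool.Agent.H484.AL

open Finset
open scoped Classical

namespace LCNT

theorem cnt_bd (g u n r : ℕ) (hg : 1 ≤ g) :
    n - g ≤ g * ((Ico u (u + n)).filter (fun x => x ≡ r [MOD g])).card ∧
    g * ((Ico u (u + n)).filter (fun x => x ≡ r [MOD g])).card ≤ n + g := by
  have h := Nat.Ico_filter_modEq_card (a := u) (b := u + n) (r := g) (by omega) r
  have hgq : (0 : ℚ) < (g : ℚ) := by exact_mod_cast hg
  set a : ℤ := ⌈(((u + n : ℕ) : ℚ) - r) / (g : ℚ)⌉ with ha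
  set b : ℤ := ⌈((u : ℚ) - r) / (g : ℚ)⌉ with hb
  set c : ℕ := ((Ico u (u + n)).filter (fun x => x ≡ r [MOD g])).card with hc
  have h1 : (((u + n : ℕ) : ℚ) - r) ≤ (a : ℚ) * g := by
    rw [← div_le_iff₀ hgq]; exact Int.le_ceil _
  have h2 : (a : ℚ) * g < (((u + n : ℕ) : ℚ) - r) + g := by
    have h3 := Int.ceil_lt_add_one ((((u + n : ℕ) : ℚ) - r) / (g : ℚ))
    rw [← ha] at h3
    have h4 : (a : ℚ) * g < ((((u + n : ℕ) : ℚ) - r) / (g : ℚ) + 1) * g :=
      mul_lt_mul_of_pos_right h3 hgq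
    rwa [add_mul, div_mul_cancel₀ _ hgq.ne', one_mul] at h4
  have h5 : ((u : ℚ) - r) ≤ (b : ℚ) * g := by
    rw [← div_le_iff₀ hgq]; exact Int.le_ceil _
  have h6 : (b : ℚ) * g < ((u : ℚ) - r) + g := by
    have h3 := Int.ceil_lt_add_one (((u : ℚ) - r) / (g : ℚ))
    rw [← hb] at h3
    have h4 : (b : ℚ) * g < (((u : ℚ) - r) / (g : ℚ) + 1) * g :=
      mul_lt_mul_of_pos_right h3 hgq
    rwa [add_mul, div_mul_cancel₀ _ hgq.ne', one_mul] at h4
  have i1 : ((u : ℤ) + n - r) ≤ a * g := by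
    have : (((u : ℤ) + n - r : ℤ) : ℚ) ≤ ((a * g : ℤ) : ℚ) := by push_cast at h1 ⊢; exact h1
    exact_mod_cast this
  have i2 : a * g < (u : ℤ) + n - r + g := by
    have : ((a * g : ℤ) : ℚ) < (((u : ℤ) + n - r + g : ℤ) : ℚ) := by push_cast at h2 ⊢; exact h2
    exact_mod_cast this
  have i3 : ((u : ℤ) - r) ≤ b * g := by
    have : (((u : ℤ) - r : ℤ) : ℚ) ≤ ((b * g : ℤ) : ℚ) := by push_cast; exact h5
    exact_mod_cast this
  have i4 : b * g < (u : ℤ) - r + g := by
    have : ((b * g : ℤ) : ℚ) < (((u : ℤ) - r + g : ℤ) : ℚ) := by push_cast; exact h6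
    exact_mod_cast this
  have h7 : (c : ℤ) = max (a - b) 0 := by
    rw [← h]
  have h8 : ((n - g : ℕ) : ℤ) ≤ (g : ℤ) * (c : ℤ) ∧ (g : ℤ) * (c : ℤ) ≤ (n : ℤ) + g := by
    rcases le_total (a - b) 0 with h9 | h9
    · have hc0 : (c : ℤ) = 0 := by rw [h7, max_eq_right h9]
      rw [hc0, mul_zero]
      have h10 : (a - b) * (g : ℤ) ≤ 0 := mul_nonpos_of_nonpos_of_nonneg h9 (by positivity)
      have h11 : (a - b) * (g : ℤ) = a * g - b * g := by ring
      omega
    · have hc0 : (c : ℤ) = a - b := by rw [h7, max_eq_left h9]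
      have h11 : (g : ℤ) * (a - b) = a * g - b * g := by ring
      rw [hc0, h11]
      have h12 : (0 : ℤ) ≤ (g : ℤ) * (a - b) := mul_nonneg (by positivity) h9
      rw [h11] at h12
      omega
  constructor
  · exact_mod_cast h8.1
  · exact_mod_cast h8.2

theorem dvd_iff_mod (e g : ℕ) (α l : Fin e → ℕ) :
    g ∣ ∑ i, α i * l i ↔ g ∣ ∑ i, α i * (l i % g) := by
  have h : (∑ i, α i * l i) ≡ (∑ i, α i * (l i % g)) [MOD g] := by
    unfold Nat.ModEq
    rw [Finset.sum_nat_mod, Finset.sum_nat_mod (f := fun i => α i * (l i % g))]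
    congr 1
    refine Finset.sum_congr rfl fun i _ => ?_
    rw [Nat.mul_mod, Nat.mul_mod (α i) (l i % g), Nat.mod_mod]
  exact ⟨fun h1 => (Nat.ModEq.dvd_iff h dvd_rfl).mp h1, fun h1 => (Nat.ModEq.dvd_iff h dvd_rfl).mpr h1⟩

theorem card_eq (e g : ℕ) (α u n : Fin e → ℕ) (hg : 1 ≤ g) :
    ((Fintype.piFinset (fun i => Ico (u i) (u i + n i))).filter
      (fun l => g ∣ ∑ i, α i * l i)).card =
    ∑ r ∈ univ.filter (fun r : Fin e → Fin g => g ∣ ∑ i, α i * (r i : ℕ)),
      ∏ i, ((Ico (u i) (u i + n i)).filter (fun x => x ≡ (r i : ℕ) [MOD g])).card := by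
  rw [Finset.card_eq_sum_card_fiberwise
    (f := fun l : Fin e → ℕ => fun i => (⟨l i % g, Nat.mod_lt _ hg⟩ : Fin g))
    (t := univ.filter (fun r : Fin e → Fin g => g ∣ ∑ i, α i * (r i : ℕ)))]
  · refine Finset.sum_congr rfl fun r hr => ?_
    rw [← Fintype.card_piFinset]
    congr 1
    ext l
    simp only [Finset.mem_filter, Fintype.mem_piFinset, Finset.mem_univ, true_and] at hr ⊢
    constructor
    · rintro ⟨⟨h1, h2⟩, h3⟩ i
      refine ⟨h1 i, ?_⟩
      have h4 := congrArg (fun f : Fin e → Fin g => (f i : ℕ)) h3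
      simp only at h4
      unfold Nat.ModEq
      rw [h4, Nat.mod_eq_of_lt (r i).isLt]
    · intro h1
      have h2 : ∀ i, l i % g = (r i : ℕ) := by
        intro i
        have h3 := (h1 i).2
        unfold Nat.ModEq at h3
        rwa [Nat.mod_eq_of_lt (r i).isLt] at h3
      refine ⟨⟨fun i => (h1 i).1, ?_⟩, ?_⟩
      · rw [dvd_iff_mod]
        simp only [h2]
        exact hr
      · funext i
        exact Fin.ext (h2 i)
  · intro l hl
    simp only [Finset.coe_filter, Finset.mem_filter, Finset.mem_univ, true_and, Set.mem_setOf_eq] at hl ⊢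
    exact (dvd_iff_mod e g α l).mp hl.2

end LCNT

theorem t_LCNT (hRES : S_RES) : S_LCNT := by
  intro e g α u n he hg hp
  have hR := hRES e g α he hg hp
  have hpow : g ^ (e - 1) * g = g ^ e := by
    rw [← pow_succ]; congr 1; omega
  have hpos : 0 < g ^ (e - 1) := pow_pos hg _
  have hcard := LCNT.card_eq e g α u n hg
  have hkey : g ^ (e - 1) * (g * ((Fintype.piFinset (fun i => Ico (u i) (u i + n i))).filter
      (fun l => g ∣ ∑ i, α i * l i)).card) =
      ∑ r ∈ univ.filter (fun r : Fin e → Fin g => g ∣ ∑ i, α i * (r i : ℕ)),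
      ∏ i, (g * ((Ico (u i) (u i + n i)).filter (fun x => x ≡ (r i : ℕ) [MOD g])).card) := by
    rw [← mul_assoc, hpow, hcard, Finset.mul_sum]
    refine Finset.sum_congr rfl fun r _ => ?_
    rw [Finset.prod_mul_distrib, Finset.prod_const, Finset.card_univ, Fintype.card_fin]
  constructor
  · refine Nat.le_of_mul_le_mul_left ?_ hpos
    rw [hkey, ← hR]
    rw [← smul_eq_mul, ← Finset.sum_const]
    refine Finset.sum_le_sum fun r _ => ?_
    exact Finset.prod_le_prod' fun i _ => (LCNT.cnt_bd g (u i) (n i) (r i) hg).1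
  · refine Nat.le_of_mul_le_mul_left ?_ hpos
    rw [hkey, ← hR]
    rw [← smul_eq_mul, ← Finset.sum_const]
    refine Finset.sum_le_sum fun r _ => ?_
    exact Finset.prod_le_prod' fun i _ => (LCNT.cnt_bd g (u i) (n i) (r i) hg).2

end Pool.Agent.H484.AL
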